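import Pool.Agent.Y395.GX.Stm

set_option autoImplicit false

/-! GX-ORD: every forest has an order in which each vertex has at most one earlier neighbour. -/

namespace Pool.Agent.Y333.GX.ORD

open Pool.Agent.Y395.GX SimpleGraph

lemma leaf {V : Type} [Fintype V] [Nonempty V] (T : SimpleGraph V) (hT : T.IsAcyclic) :
    ∃ v, ∀ a b, T.Adj v a → T.Adj v b → a = b := by
  classical
  obtain ⟨F, hTF, hF⟩ := exists_maximal_isAcyclic_of_le_isAcyclic (G := ⊤) (le_top : T ≤ ⊤) hT
  have hF' : Maximal IsAcyclic F := by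
    simpa using hF
  rw [maximal_isAcyclic_iff_isTree] at hF'
  rcases subsingleton_or_nontrivial V with hs | hn
  · obtain ⟨v⟩ := ‹Nonempty V›
    exact ⟨v, fun a b _ _ => Subsingleton.elim a b⟩
  · obtain ⟨v, hv⟩ := hF'.exists_vert_degree_one_of_nontrivial
    refine ⟨v, fun a b ha hb => ?_⟩
    rw [degree_eq_one_iff_existsUnique_adj] at hv
    obtain ⟨w, _, hw⟩ := hv
    rw [hw a (hTF ha), hw b (hTF hb)]

theorem main : SOrd := by
  intro f
  induction f with
  | zero =>
    intro T _
    exact ⟨T, fun i => i.elim0, ⟨Iso.refl⟩⟩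
  | succ f ih =>
    intro T hT
    obtain ⟨v, hv⟩ := leaf T hT
    let σ : Fin (f + 1) ≃ Fin (f + 1) := Equiv.swap v (Fin.last f)
    have hσ : σ (Fin.last f) = v := Equiv.swap_apply_right _ _
    have hac : ((T.comap σ).comap Fin.castSuccEmb).IsAcyclic := by
      apply IsAcyclic.of_comap
      exact IsAcyclic.of_comap σ.toEmbedding hT
    obtain ⟨T₂, hN, ⟨e⟩⟩ := ih _ hac
    let τ : Fin (f + 1) ≃ Fin (f + 1) :=
      (finSuccEquivLast.trans (Equiv.optionCongr e.symm.toEquiv)).trans finSuccEquivLast.symm
    have hτl : τ (Fin.last f) = Fin.last f := by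
      simp [τ]
    have hτc : ∀ i : Fin f, τ i.castSucc = (e.symm i).castSucc := by
      intro i
      simp [τ]
      rfl
    refine ⟨T.comap (τ.trans σ), ?_, ⟨(Iso.comap (τ.trans σ) T).symm⟩⟩
    intro i j k hj hk hij hik
    have h1 : T.Adj (σ (τ i)) (σ (τ j)) := hij
    have h2 : T.Adj (σ (τ i)) (σ (τ k)) := hik
    induction i using Fin.lastCases with
    | last =>
      rw [hτl, hσ] at h1 h2
      exact τ.injective (σ.injective (hv _ _ h1 h2))
    | cast i =>
      induction j using Fin.lastCases with
      | last => exact absurd (lt_trans hj (Fin.castSucc_lt_last i)) (lt_irrefl _)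
      | cast j =>
        induction k using Fin.lastCases with
        | last => exact absurd (lt_trans hk (Fin.castSucc_lt_last i)) (lt_irrefl _)
        | cast k =>
          rw [hτc, hτc] at h1 h2
          have h1' : ((T.comap σ).comap Fin.castSuccEmb).Adj (e.symm i) (e.symm j) := h1
          have h2' : ((T.comap σ).comap Fin.castSuccEmb).Adj (e.symm i) (e.symm k) := h2
          rw [e.symm.map_adj_iff] at h1' h2'
          rw [hN i j k (by simpa using hj) (by simpa using hk) h1' h2']

end Pool.Agent.Y333.GX.ORD
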